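import Pool.Agent.W603.GR.Main

/-!
The four properties for quasi-projective varieties with a rigid system of generalised unit
equations.
-/

set_option autoImplicit false

open FF MvPolynomial Filter Metric Topology Pool.Agent.W603.LV Pool.Agent.W603.PV
  Pool.Agent.W603.BPR Pool.Agent.W603.BP Pool.Agent.W602.GT

namespace Pool.Agent.W603.GR

variable {n : ℕ}

/-- The closed subvarieties of positive dimension of `X` which are not contained in the hypersurface
`G = 0` are of log general type. -/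
def SubLogGT (p : Ideal (MvPolynomial (Fin (n + 1)) ℂ)) (Q : MvPolynomial (Fin (n + 1)) ℂ) (q : ℕ)
    (G : MvPolynomial (Fin (n + 1)) ℂ) : Prop :=
  ∀ (K : Type) [Field K] [Algebra ℂ K] (w : ℕ) (y : Fin (n + 1) → K), 1 ≤ w →
    SubVarP p Q K w y → val y G ≠ 0 → LogGeneralType ℂ K w (OffQ Q q y)

/-- `X` is of log general type, if its dimension is positive: this is stated for its function field
`K` and its generic point `y`. -/
def LogGT (p : Ideal (MvPolynomial (Fin (n + 1)) ℂ)) (Q : MvPolynomial (Fin (n + 1)) ℂ) (q : ℕ) :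
    Prop :=
  ∀ (K : Type) [Field K] [Algebra ℂ K] (w : ℕ) (y : Fin (n + 1) → K), 1 ≤ w →
    SubVarP p Q K w y → (∀ H, IsForm H → val y H = 0 → H ∈ p) →
    LogGeneralType ℂ K w (OffQ Q q y)

variable {p : Ideal (MvPolynomial (Fin (n + 1)) ℂ)} {Q : MvPolynomial (Fin (n + 1)) ℂ}
  {q : ℕ} {I : Type} {s : I → ℕ}

theorem rigid_log [Finite I] [p.IsPrime] (hp : IsHomog p) (hQ : Q.IsHomogeneous q)
    (E : EqSys p Q q s) (hE : E.Rigid) {S : ℕ} (hS : ∀ i, s i ≤ S)
    (hN : ∀ i, n * ((S + 1) * tn (S - 1)) ≤ E.N i) :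
    ∃ G : MvPolynomial (Fin (n + 1)) ℂ, (∃ d, G.IsHomogeneous d) ∧ G ∉ p ∧ SubLogGT p Q q G := by
  by_cases hx : ∃ j, X j ∉ p
  · obtain ⟨G0, hG0, h⟩ := log_core hQ E hE hx hS hN
    obtain ⟨d, hd⟩ := exists_component hp hG0
    refine ⟨homogeneousComponent d G0, ⟨d, homogeneousComponent_isHomogeneous d G0⟩, hd, ?_⟩
    intro K _ _ w y hw hy hGy
    have hinf : Infinite K := Infinite.of_injective _ (algebraMap ℂ K).injective
    obtain ⟨c, hc, hcG⟩ := exists_scale G0 y d hGy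
    have h1 := h K w (fun j => c * y j) hw (hy.scale hp hQ hc) hcG
    rwa [offQ_scale hQ hy.off hc] at h1
  · push Not at hx
    refine ⟨1, ⟨0, isHomogeneous_one _ _⟩, fun h => (Ideal.ne_top_iff_one p).1
      (Ideal.IsPrime.ne_top inferInstance) h, ?_⟩
    intro K _ _ w y hw hy hGy
    exfalso
    apply hy.ne
    funext j
    have h1 := hy.mem _ (hx j)
    unfold val at h1
    rwa [aeval_X] at h1

/-- **The four properties.** -/
theorem rigid_four [Finite I] [p.IsPrime] (hp : IsHomog p) (hQ : Q.IsHomogeneous q)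
    (E : EqSys p Q q s) (hE : E.Rigid) {S : ℕ} (hS : ∀ i, s i ≤ S)
    (hN : ∀ i, n * ((S + 1) * tn (S - 1)) ≤ E.N i) :
    LogGT p Q q ∧
    ∃ G : MvPolynomial (Fin (n + 1)) ℂ, (∃ d, G.IsHomogeneous d) ∧ G ∉ p ∧
      (∀ f, PCurve p Q f → (∃ z ∈ ball (0 : ℂ) 1 \ {0}, eval (f z) G ≠ 0) → Extends f) ∧
      (∀ f, EntireCurve p Q f → ∀ z, eval (f z) G = 0) ∧ SubLogGT p Q q G := by
  obtain ⟨G1, ⟨d1, hd1⟩, h1, h2, h3⟩ := rigid_picard hp hQ E hE
  obtain ⟨G2, ⟨d2, hd2⟩, h4, h5⟩ := rigid_log hp hQ E hE hS hN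
  refine ⟨?_, G1 * G2, ⟨d1 + d2, hd1.mul hd2⟩, ?_, ?_, ?_, ?_⟩
  · intro K _ _ w y hw hy hgen
    exact h5 K w y hw hy fun h => h4 (hgen G2 ⟨d2, hd2⟩ h)
  · intro h
    rcases Ideal.IsPrime.mem_or_mem inferInstance h with h | h
    · exact h1 h
    · exact h4 h
  · rintro f hf ⟨z, hz, hGz⟩
    rw [map_mul] at hGz
    exact h2 f hf ⟨z, hz, left_ne_zero_of_mul hGz⟩
  · intro f hf z
    rw [map_mul, h3 f hf z, zero_mul]
  · intro K _ _ w y hw hy hGy
    refine h5 K w y hw hy fun h => hGy ?_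
    unfold val at h ⊢
    rw [map_mul, h, mul_zero]

end Pool.Agent.W603.GR
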