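import Pool.Agent.W603.BP.RMain
import Pool.Agent.W602.GT.War

/-!
Subvarieties of quasi-projective varieties with a rigid system of generalised unit equations are of
log general type.
-/

set_option autoImplicit false

open FF MvPolynomial Pool.Agent.W603.LV Pool.Agent.W603.PV Pool.Agent.W603.BPR
  Pool.Agent.W602.GT

namespace Pool.Agent.W603.GR

section defs

variable {k : Type} [Field k] {n : ℕ}

/-- `K` is the function field, and `y` the generic point in homogeneous coordinates, of a closed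
subvariety of dimension `w` of the quasi-projective variety in `P^n` that is the complement of the
hypersurface `Q = 0` in the closed variety with the ideal `p`. -/
structure SubVarP (p : Ideal (MvPolynomial (Fin (n + 1)) k)) (Q : MvPolynomial (Fin (n + 1)) k)
    (K : Type) [Field K] [Algebra k K] (w : ℕ) (y : Fin (n + 1) → K) : Prop where
  ne : y ≠ 0
  mem : ∀ H ∈ p, val y H = 0
  off : val y Q ≠ 0
  gen : coords k y = ⊤
  dim : Algebra.trdeg k K = w

/-- The centre of the place `P`, in the closure of the subvariety with generic point `y`, lies on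
the hypersurface given by the form `Q` of degree `q`. -/
def OffQ (Q : MvPolynomial (Fin (n + 1)) k) (q : ℕ) {K : Type} [Field K] [Algebra k K]
    (y : Fin (n + 1) → K) (P : Place k K) : Prop :=
  ∃ i, y i ≠ 0 ∧ q * P.ord (y i) < P.ord (val y Q)

end defs

variable {k K : Type} [Field k] [Field K] [Algebra k K] {n : ℕ}

theorem reg_aeval (P : Place k K) {y : Fin (n + 1) → K} (hy : ∀ i, P.Reg (y i))
    (G : MvPolynomial (Fin (n + 1)) k) : P.Reg (aeval y G) := by
  induction G using MvPolynomial.induction_on with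
  | C a => rw [aeval_C]; exact P.reg_const a
  | add p q hp hq => rw [map_add]; exact P.reg_add hp hq
  | mul_X p j hp => rw [map_mul, aeval_X]; exact P.reg_mul hp (hy j)

theorem exists_min (P : Place k K) {y : Fin (n + 1) → K} (hy : y ≠ 0) :
    ∃ i0, y i0 ≠ 0 ∧ ∀ i, y i ≠ 0 → P.ord (y i0) ≤ P.ord (y i) := by
  classical
  obtain ⟨j, hj⟩ := Function.ne_iff.1 hy
  obtain ⟨i0, h1, h2⟩ := Finset.exists_min_image (Finset.univ.filter fun i => y i ≠ 0)
    (fun i => P.ord (y i)) ⟨j, by simpa using hj⟩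
  rw [Finset.mem_filter] at h1
  exact ⟨i0, h1.2, fun i hi => h2 i (Finset.mem_filter.2 ⟨Finset.mem_univ _, hi⟩)⟩

theorem ord_form (P : Place k K) {y : Fin (n + 1) → K} {i0 : Fin (n + 1)} (h0 : y i0 ≠ 0)
    (hmin : ∀ i, y i ≠ 0 → P.ord (y i0) ≤ P.ord (y i)) {G : MvPolynomial (Fin (n + 1)) k} {d : ℕ}
    (hG : G.IsHomogeneous d) (hGy : val y G ≠ 0) : d * P.ord (y i0) ≤ P.ord (val y G) := by
  have h1 : val y G = y i0 ^ d * aeval (fun i => y i / y i0) G := by
    rw [← aeval_scale hG (fun i => y i / y i0) (y i0)]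
    unfold val
    congr 2
    funext i
    field_simp
  have h2 : aeval (fun i => y i / y i0) G ≠ 0 := fun h => hGy (by rw [h1, h, mul_zero])
  have h3 : P.Reg (aeval (fun i => y i / y i0) G) := by
    refine reg_aeval P (fun i => ?_) G
    by_cases hi : y i = 0
    · left
      rw [hi, zero_div]
    · right
      rw [P.ord_div hi h0]
      linarith [hmin i hi]
  rw [h1, P.ord_mul (pow_ne_zero _ h0) h2, P.ord_pow]
  linarith [(P.reg_iff h2).1 h3]

/-- a derivation vanishes on the functions which are algebraic over its constants -/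
theorem der_zero_of_alg [CharZero k] (D : Derivation k K K) {f : K}
    (hf : IsAlgebraic (consts D) f) : D f = 0 := by
  have hint : IsIntegral (consts D) f := hf.isIntegral
  have hchar : CharZero (consts D) := charZero_of_injective_algebraMap
    (algebraMap k (consts D)).injective
  have h1 : overConsts D (Polynomial.aeval f (minpoly (consts D) f)) = 0 := by
    rw [minpoly.aeval, map_zero]
  rw [Derivation.map_aeval] at h1
  have h2 : Polynomial.aeval f (Polynomial.derivative (minpoly (consts D) f)) ≠ 0 :=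
    (minpoly.irreducible hint).separable.aeval_derivative_ne_zero (minpoly.aeval _ _)
  rw [smul_eq_mul, overConsts_apply] at h1
  exact (mul_eq_zero.mp h1).resolve_left h2

theorem der_zero_of_rel [CharZero k] (D : Derivation k K K) {f : K} {N : ℕ} {m : ℕ → K}
    (hm : ∀ d, D (m d) = 0) (hN : m N ≠ 0)
    (h : ∑ d ∈ Finset.range (N + 1), m d * f ^ d = 0) : D f = 0 := by
  apply der_zero_of_alg
  refine ⟨∑ d ∈ Finset.range (N + 1), Polynomial.C (⟨m d, hm d⟩ : consts D) * Polynomial.X ^ d,
    ?_, ?_⟩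
  · intro h0
    have h1 := congrArg (fun g => Polynomial.coeff g N) h0
    simp only [Polynomial.finsetSum_coeff, Polynomial.coeff_C_mul_X_pow, Polynomial.coeff_zero]
      at h1
    rw [Finset.sum_ite_eq, if_pos (Finset.mem_range.2 (Nat.lt_succ_self N))] at h1
    exact hN (congrArg Subtype.val h1)
  · rw [map_sum, ← h]
    refine Finset.sum_congr rfl fun d _ => ?_
    rw [map_mul, Polynomial.aeval_C, map_pow, Polynomial.aeval_X]
    rfl

/-- scaling of subvarieties -/
theorem SubVarP.scale {p : Ideal (MvPolynomial (Fin (n + 1)) k)} {Q : MvPolynomial (Fin (n + 1)) k}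
    {q w : ℕ} {y : Fin (n + 1) → K} (hp : IsHomog p) (hQ : Q.IsHomogeneous q)
    (hy : SubVarP p Q K w y) {c : K} (hc : c ≠ 0) : SubVarP p Q K w (fun j => c * y j) := by
  refine ⟨?_, ?_, ?_, ?_, hy.dim⟩
  · obtain ⟨j, hj⟩ := Function.ne_iff.1 hy.ne
    exact Function.ne_iff.2 ⟨j, mul_ne_zero hc hj⟩
  · intro H hH
    unfold val
    rw [aeval_scale_sum]
    exact Finset.sum_eq_zero fun d _ => by
      have h1 := hy.mem _ (hp H hH d)
      unfold val at h1
      rw [h1, mul_zero]
  · unfold val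
    rw [aeval_scale hQ]
    exact mul_ne_zero (pow_ne_zero _ hc) hy.off
  · rw [← hy.gen]
    unfold coords
    congr 1
    ext z
    constructor
    · rintro ⟨i, j, hj, rfl⟩
      exact ⟨i, j, right_ne_zero_of_mul hj, by field_simp⟩
    · rintro ⟨i, j, hj, rfl⟩
      exact ⟨i, j, mul_ne_zero hc hj, by field_simp⟩

theorem offQ_scale {Q : MvPolynomial (Fin (n + 1)) k} {q : ℕ} {y : Fin (n + 1) → K}
    (hQ : Q.IsHomogeneous q) (hy : val y Q ≠ 0) {c : K} (hc : c ≠ 0) :
    OffQ Q q (fun j => c * y j) = OffQ Q q y := by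
  funext P
  have h1 : val (fun j => c * y j) Q = c ^ q * val y Q := by
    unfold val
    rw [aeval_scale hQ]
  have h2 : P.ord (val (fun j => c * y j) Q) = q * P.ord c + P.ord (val y Q) := by
    rw [h1, P.ord_mul (pow_ne_zero _ hc) hy, P.ord_pow]
  apply propext
  unfold OffQ
  rw [h2]
  constructor
  · rintro ⟨i, hi, h⟩
    have hi' : y i ≠ 0 := right_ne_zero_of_mul hi
    rw [P.ord_mul hc hi'] at h
    exact ⟨i, hi', by linarith⟩
  · rintro ⟨i, hi, h⟩
    refine ⟨i, mul_ne_zero hc hi, ?_⟩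
    rw [P.ord_mul hc hi]
    linarith

variable {p : Ideal (MvPolynomial (Fin (n + 1)) k)} {Q : MvPolynomial (Fin (n + 1)) k}
  {q : ℕ} {I : Type} {s : I → ℕ}

/-- Subvarieties of a variety with a rigid system are of log general type, outside a hypersurface
`G = 0`. -/
theorem log_core [IsAlgClosed k] [CharZero k] [Finite I] [p.IsPrime] (hQ : Q.IsHomogeneous q)
    (E : EqSys p Q q s) (hE : E.Rigid) (hx : ∃ j, X j ∉ p) {S : ℕ} (hS : ∀ i, s i ≤ S)
    (hN : ∀ i, n * ((S + 1) * tn (S - 1)) ≤ E.N i) :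
    ∃ G : MvPolynomial (Fin (n + 1)) k, G ∉ p ∧ ∀ (K : Type) [Field K] [Algebra k K] (w : ℕ)
      (y : Fin (n + 1) → K), 1 ≤ w → SubVarP p Q K w y → val y G ≠ 0 →
      LogGeneralType k K w (OffQ Q q y) := by
  classical
  obtain ⟨l, hl⟩ := hx
  have hmk : ∀ H : MvPolynomial (Fin (n + 1)) k, H ∉ p → Ideal.Quotient.mk p H ≠ 0 := by
    intro H hH h
    exact hH (Ideal.Quotient.eq_zero_iff_mem.1 h)
  choose χ e m hχ hde hunit using E.unit
  obtain ⟨g, hg, hdvd, hcore⟩ := core_alg.{0, 0, 0, 0, 0} (F := k)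
    (A := MvPolynomial (Fin (n + 1)) k ⧸ p) E.term
    (J := Fin (n + 1)) (fun j => Ideal.Quotient.mk p (X j)) (fun _ => Ideal.Quotient.mk p (X l))
    (fun _ => hmk _ hl) (by
      intro R hR hR2 j
      refine hE R hR (fun i a => ?_) j l
      refine Eq.trans ?_ (hR2 i a)
      refine Finset.sum_congr ?_ fun _ _ => rfl
      ext b
      simp only [Finset.mem_filter, Finset.mem_univ, true_and])
  obtain ⟨G, hG⟩ := Ideal.Quotient.mk_surjective g
  refine ⟨G, fun h => hg (by rw [← hG]; exact Ideal.Quotient.eq_zero_iff_mem.2 h), ?_⟩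
  intro K _ _ w y hw hy hGy
  have hgen : Algebra.IsAlgebraic (coords k y) K := by
    rw [hy.gen]
    exact ⟨fun x => isAlgebraic_algebraMap (⟨x, IntermediateField.mem_top⟩ : (⊤ : IntermediateField k K))⟩
  have hwn := dim_le hy.ne hgen hy.dim
  let θ : (MvPolynomial (Fin (n + 1)) k ⧸ p) →ₐ[k] K :=
    Ideal.Quotient.liftₐ p (aeval y) (fun H hH => hy.mem H hH)
  have hθ : ∀ H, θ (Ideal.Quotient.mk p H) = val y H :=
    fun H => Ideal.Quotient.liftₐ_apply p _ (fun H hH => hy.mem H hH) _
  have hθg : θ g ≠ 0 := by rw [← hG, hθ]; exact hGy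
  let J : I → Type := fun i => {a : Fin (s i) // E.term i a ≠ 0}
  let gg : ∀ i, J i → K := fun i a => θ (E.term i a)
  have hgg : ∀ i j, gg i j ≠ 0 := by
    rintro i ⟨a, ha⟩ h0
    obtain ⟨c, hc⟩ := hdvd i a ha
    apply hθg
    rw [hc, map_mul]
    change θ (E.term i a) = 0 at h0
    rw [h0, zero_mul]
  have hsum : ∀ i, ∑ j, gg i j = 0 := by
    intro i
    have h1 : ∑ a, θ (E.term i a) = 0 := by
      have h2 := hy.mem _ (E.rel i)
      rw [← hθ, map_sum, map_sum] at h2
      exact h2
    rw [← h1]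
    change ∑ a : {a : Fin (s i) // E.term i a ≠ 0}, θ (E.term i a) = _
    rw [← Finset.sum_subtype (Finset.univ.filter fun a => E.term i a ≠ 0) (by simp)
      (fun a => θ (E.term i a)), Finset.sum_filter_of_ne]
    intro a _ ha h0
    exact ha (by rw [h0, map_zero])
  have hcard : ∀ i, Fintype.card (J i) ≤ S := fun i =>
    (Fintype.card_subtype_le _).trans (by rw [Fintype.card_fin]; exact hS i)
  -- the orders of the terms
  have hord : ∀ P : Place k K, ¬ OffQ Q q y P → ∃ μ : ℤ, ∀ i (a : J i), ∃ c : ℤ,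
      P.ord (gg i a) = E.d i * μ + E.N i * c := by
    intro P hP
    obtain ⟨i0, h0, hmin⟩ := exists_min P hy.ne
    unfold OffQ at hP
    push Not at hP
    have hQo : P.ord (val y Q) = q * P.ord (y i0) :=
      le_antisymm (hP i0 h0) (ord_form P h0 hmin hQ hy.off)
    refine ⟨P.ord (y i0), fun i a => ?_⟩
    have hu : val y (E.ψ i a) * val y (χ i a) = val y Q ^ m i a := by
      have h2 := hy.mem _ (hunit i a)
      unfold val at h2 ⊢
      rw [map_sub, map_mul, map_pow] at h2
      exact sub_eq_zero.1 h2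
    have hune : val y (E.ψ i a) * val y (χ i a) ≠ 0 := by
      rw [hu]
      exact pow_ne_zero _ hy.off
    have hψ := left_ne_zero_of_mul hune
    have hχ0 := right_ne_zero_of_mul hune
    have h3 : P.ord (val y (E.ψ i a)) + P.ord (val y (χ i a)) = m i a * (q * P.ord (y i0)) := by
      rw [← P.ord_mul hψ hχ0, hu, P.ord_pow, hQo]
    have h4 := ord_form P h0 hmin (E.homψ i a) hψ
    have h5 := ord_form P h0 hmin (hχ i a) hχ0
    have h6 : ((E.dψ i a : ℤ) + e i a) * P.ord (y i0) = m i a * (q * P.ord (y i0)) := by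
      have h7 : ((E.dψ i a : ℤ) + e i a) = m i a * q := by exact_mod_cast hde i a
      rw [h7]
      ring
    have h8 : P.ord (val y (E.ψ i a)) = E.dψ i a * P.ord (y i0) := by
      linarith
    have h9 : gg i a = val y (E.ψ i a) * val y (E.φ i a) ^ E.N i := by
      change θ (Ideal.Quotient.mk p (E.ψ i a * E.φ i a ^ E.N i)) = _
      rw [hθ]
      unfold val
      rw [map_mul, map_pow]
    have h10 : val y (E.φ i a) ^ E.N i ≠ 0 := by
      intro h
      apply hgg i a
      rw [h9, h, mul_zero]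
    refine ⟨P.ord (val y (E.φ i a)) - E.dφ i a * P.ord (y i0), ?_⟩
    rw [h9, P.ord_mul hψ h10, P.ord_pow, h8]
    have h11 : (E.d i : ℤ) = E.dψ i a + E.N i * E.dφ i a := by exact_mod_cast (E.deg i a).symm
    rw [h11]
    ring
  have hjump : ∀ P : Place k K, ¬ OffQ Q q y P → ∀ i (a b : J i),
      P.ord (gg i a) = P.ord (gg i b) ∨
      ((w * ((S + 1) * tn (S - 1)) : ℕ) : ℤ) ≤ |P.ord (gg i a) - P.ord (gg i b)| := by
    intro P hP i a b
    obtain ⟨μ, hμ⟩ := hord P hP
    obtain ⟨c, hc⟩ := hμ i a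
    obtain ⟨c', hc'⟩ := hμ i b
    by_cases h : P.ord (gg i a) = P.ord (gg i b)
    · exact Or.inl h
    · right
      have h2 : (E.N i : ℤ) ∣ P.ord (gg i a) - P.ord (gg i b) := ⟨c - c', by rw [hc, hc']; ring⟩
      have h3 : w * ((S + 1) * tn (S - 1)) ≤ E.N i := (Nat.mul_le_mul_right _ hwn).trans (hN i)
      have h4 : ((w * ((S + 1) * tn (S - 1)) : ℕ) : ℤ) ≤ E.N i := by exact_mod_cast h3
      refine h4.trans ?_
      exact Int.le_of_dvd (abs_pos.2 (sub_ne_zero.2 h)) ((dvd_abs _ _).2 h2)
  rcases system hw hy.dim gg hgg hsum hcard (OffQ Q q y) hjump with h | ⟨D, hD, hR⟩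
  · exact h
  exfalso
  have hcon := hcore K (consts D).toSubalgebra θ hθg (by
    intro i
    obtain ⟨R, hR1, hR2, hR3⟩ := hR i
    refine ⟨R, hR1, fun a b hab => ?_, hR3⟩
    have h1 := hR2 a b hab
    have h2 := hgg i b
    change D (θ (E.term i a) / θ (E.term i b)) = 0
    change D (θ (E.term i a)) * θ (E.term i b) = θ (E.term i a) * D (θ (E.term i b)) at h1
    change θ (E.term i b) ≠ 0 at h2
    rw [div_eq_mul_inv, D.leibniz, D.leibniz_inv]
    simp only [smul_eq_mul]
    field_simp
    linear_combination h1)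
  have hl0 : y l ≠ 0 := by
    have h1 := (hcon l).1
    rw [hθ] at h1
    unfold val at h1
    rwa [aeval_X] at h1
  have hDl : ∀ j, D (y j / y l) = 0 := by
    intro j
    obtain ⟨-, N, mm, h1, h2, h3⟩ := hcon j
    refine der_zero_of_rel D (fun d => h1 d) h2 ?_
    rw [hθ, hθ] at h3
    unfold val at h3
    rwa [aeval_X, aeval_X] at h3
  refine hD (der_eq_zero D _ hgen ?_)
  rintro _ ⟨i, j, hj, rfl⟩
  have h1 : y i / y j = (y i / y l) * (y j / y l)⁻¹ := by field_simp
  rw [h1, D.leibniz, D.leibniz_inv, hDl, hDl]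
  simp

end Pool.Agent.W603.GR
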